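import Pool.Agent.Lib.MP_4fbe7c_an.UL.Iface
import Pool.Agent.Lib.MP_4fbe7c_an.SD.Calc

/-!
DIS: the functional decreases. The formula of DVF, the algebraic theorem at every point, and
`ρ₀ (U - θ) ζ (W - ζ) ≤ (U - θ) ^ 2 / 2 + ρ₀ θ / 2000 · N`.
-/

set_option autoImplicit false

open Set

namespace Pool.Agent.Lib.MP_4fbe7c_an.UL.H45

open Pool.Agent.Lib.MP_4fbe7c_an.SD Pool.Agent.Lib.MP_4fbe7c_an.FC
open Pool.Agent.Lib.MP_4fbe7c_an.UL

/-! ### Continuity of the forms -/

section cont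

variable {I : Set ℝ} {n c : ℕ} {r : ℕ → ℝ} {η S Z ZZ : ℝ → ℕ → ℝ} {ζ lam A : ℝ → ℝ}

lemma cont_bs {k : ℕ} (hS : ContinuousOn (fun x => S x k) I) (hS0 : ∀ x ∈ I, S x k ≠ 0)
    (hZ : ContinuousOn (fun x => Z x k) I) : ContinuousOn (fun x => bs (S x) (Z x) k) I :=
  hZ.div hS hS0

lemma cont_N (hS : ∀ k, k ≤ n → ContinuousOn (fun x => S x k) I)
    (hS0 : ∀ k, k ≤ n → ∀ x ∈ I, S x k ≠ 0)
    (hZ : ∀ k, k ≤ n → ContinuousOn (fun x => Z x k) I)
    (hZZ : ∀ k, k ≤ n → ContinuousOn (fun x => ZZ x k) I) (hζ : ContinuousOn ζ I) :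
    ContinuousOn (fun x => Nf n r (S x) (Z x) (ZZ x) (ζ x)) I := by
  unfold Nf
  refine (((hZ n le_rfl).sub hζ).pow 2 |>.add
    (((cont_bs (hS 0 n.zero_le) (hS0 0 n.zero_le) (hZ 0 n.zero_le)).sub hζ).pow 2)).add ?_
  refine continuousOn_finsetSum _ fun j hj => ?_
  have hj' : j + 1 ≤ n := Finset.mem_range.mp hj
  exact continuousOn_const.mul
    (((cont_bs (hS _ hj') (hS0 _ hj') (hZZ _ hj')).sub
      (cont_bs (hS _ hj') (hS0 _ hj') (hZ _ hj'))).pow 2)

lemma cont_Lm {k : ℕ} (hη : ContinuousOn (fun x => η x k) I) :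
    ContinuousOn (fun x => Lm r (η x) k) I := by
  unfold Lm
  exact (((continuousOn_const.add hη).mul continuousOn_const).div_const _)

lemma cont_Q (hcn : c ≤ n) (hη : ∀ k, ContinuousOn (fun x => η x k) I)
    (hS : ∀ k, k ≤ n → ContinuousOn (fun x => S x k) I)
    (hS0 : ∀ k, k ≤ n → ∀ x ∈ I, S x k ≠ 0)
    (hZ : ∀ k, k ≤ n → ContinuousOn (fun x => Z x k) I)
    (hZZ : ∀ k, k ≤ n → ContinuousOn (fun x => ZZ x k) I) (hζ : ContinuousOn ζ I)
    (hlam : ContinuousOn lam I) (hA : ContinuousOn A I) :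
    ContinuousOn (fun x => Qf n c (lam x) (A x) r (η x) (S x) (Z x) (ZZ x) (ζ x)) I := by
  have hb : ∀ k, k ≤ n → ContinuousOn (fun x => bs (S x) (Z x) k) I := fun k hk =>
    cont_bs (hS k hk) (hS0 k hk) (hZ k hk)
  have he : ∀ k, k ≤ n → ContinuousOn (fun x => bs (S x) (ZZ x) k) I := fun k hk =>
    cont_bs (hS k hk) (hS0 k hk) (hZZ k hk)
  have hq : ∀ k, k ≤ n → ContinuousOn (fun x => S x c / S x k) I := fun k hk =>
    (hS c hcn).div (hS k hk) (hS0 k hk)
  unfold Qf
  refine ContinuousOn.add (ContinuousOn.add ?_ ?_) ?_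
  · unfold Qlog
    refine ContinuousOn.add (ContinuousOn.sub (hζ.pow 2) (hζ.mul ((hZ n le_rfl).add ?_))) ?_
    · refine continuousOn_finsetSum _ fun k hk => ?_
      have hk' : k ≤ n := Nat.lt_succ_iff.mp (Finset.mem_range.mp hk)
      exact (((hη k).mul continuousOn_const).sub ((hη (k + 1)).mul continuousOn_const)).mul
        (he k hk')
    · refine continuousOn_finsetSum _ fun k hk => ?_
      have hk' : k ≤ n := Nat.lt_succ_iff.mp (Finset.mem_range.mp hk)
      exact ((cont_Lm (hη k)).sub (cont_Lm (hη (k + 1)))).mul ((hb k hk').mul (he k hk'))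
  · refine (hlam.mul hζ).mul ?_
    unfold Tf
    refine continuousOn_finsetSum _ fun j hj => ?_
    have hj' : j + 1 ≤ n := (Finset.mem_Ico.mp hj).2
    exact continuousOn_const.mul ((continuousOn_const.sub (hq _ hj')).mul
      ((he _ hj').sub (he c hcn)))
  · refine hA.mul ?_
    unfold Hf
    refine continuousOn_finsetSum _ fun j hj => ?_
    have hj' : j + 1 ≤ n := (Finset.mem_Ico.mp hj).2
    exact continuousOn_const.mul (((hq _ hj').mul (((hb c hcn).sub (hb _ hj')).mul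
      ((he c hcn).sub (he _ hj')))).sub ((continuousOn_const.sub (hq _ hj')).mul
        (((hb _ hj').mul (he _ hj')).sub ((hb c hcn).mul (he c hcn)))))

lemma cont_eta (hlam : ContinuousOn lam I) (k : ℕ) :
    ContinuousOn (fun x => etaf c r (lam x) k) I := by
  unfold etaf
  by_cases hk : k = 0
  · simp only [hk, if_true]
    exact continuousOn_const
  · simp only [hk, if_false]
    refine (continuousOn_const.sub ?_).div_const _
    unfold Qk
    exact continuousOn_const.mul ((hlam.mul continuousOn_const).neg.rexp)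

end cont

/-! ### The static inequality -/

lemma hh_mono {a b : ℝ} (ha : 0 ≤ a) (hab : a ≤ b) (hb : b < 1) : hh a ≤ hh b := by
  unfold hh
  have h1 : a ^ 2 ≤ b ^ 2 := by nlinarith
  have h2 : 0 < 1 - b ^ 2 := by nlinarith
  rw [div_le_div_iff₀ (by linarith) h2]
  nlinarith [sq_nonneg a, sq_nonneg b]

lemma Nf_ge {n c : ℕ} {r : ℕ → ℝ} (hr : Rts n c r) (S Z ZZ : ℕ → ℝ) (ζ : ℝ) :
    (Z n - ζ) ^ 2 ≤ Nf n r S Z ZZ ζ := by
  unfold Nf
  have h1 : ∀ k, 1 ≤ k → k ≤ n → r k < 1 := by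
    intro k hk
    induction k, hk using Nat.le_induction with
    | base => intro _; exact hr.r1
    | succ k hk ih => intro hkn; exact (hr.ranti k (by omega)).trans_lt (ih (by omega))
  have h2 : ∀ k, k ≤ n + 1 → 0 ≤ r k := by
    intro k hk
    rcases Nat.lt_or_ge n k with h | h
    · have : k = n + 1 := by omega
      rw [this, hr.rlast]
    · exact (hr.rpos k h).le
  have h3 : 0 ≤ ∑ j ∈ Finset.range n, Gs r (j + 1) * (bs S ZZ (j + 1) - bs S Z (j + 1)) ^ 2 := by
    refine Finset.sum_nonneg fun j hj => mul_nonneg ?_ (sq_nonneg _)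
    have hj' : j + 1 ≤ n := Finset.mem_range.mp hj
    unfold Gs
    have := hh_mono (h2 (j + 1 + 1) (by omega)) (hr.ranti (j + 1) hj') (h1 (j + 1) (by omega) hj')
    linarith
  nlinarith [sq_nonneg (bs S Z 0 - ζ)]

lemma point {g z W N Q d th : ℝ} (hd : 0 < d) (hth : 0 < th) (hz : d * z ^ 2 ≤ th / 1000)
    (hN : (W - z) ^ 2 ≤ N) (hQ : 1 / 2 * N ≤ 4 * Q) :
    -g ^ 2 + d * (g * z * (W - z)) - d * th * Q ≤ -(1 / 2 * g ^ 2 + d / 16 * (th * N)) := by
  have hN0 : 0 ≤ N := (sq_nonneg _).trans hN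
  have h1 : d * (g * z * (W - z)) ≤ 1 / 2 * g ^ 2 + 1 / 2 * (d * z ^ 2) * d * (W - z) ^ 2 := by
    nlinarith [sq_nonneg (g - d * z * (W - z))]
  have h2 : (d * z ^ 2) * (d * (W - z) ^ 2) ≤ th / 1000 * (d * N) := by
    refine mul_le_mul hz (mul_le_mul_of_nonneg_left hN hd.le) (by positivity) (by positivity)
  have h3 : d * th * (1 / 8 * N) ≤ d * th * Q := mul_le_mul_of_nonneg_left (by linarith) (by positivity)
  have h4 : 0 ≤ d * th * N := by positivity
  nlinarith

theorem dis (hA : AlgStatement) (hE : EtaStatement) (hW : WtsStatement) (hS : StaStatement)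
    (hD : DvfStatement) : DisStatement := by
  intro L a₀ b m θ θ' θ'' n c ρ u v w hsol hord hrts hst ha hb hθ hz t ht
  have hL : 0 < L := hsol.hL
  have hn0 : ∀ i, i ≤ n → 0 < ρ i := by
    intro i
    induction i with
    | zero => intro _; exact hord.pos
    | succ i ih => intro hi; exact (ih (by omega)).trans_le (hord.mono i (by omega))
  have hb0 : 0 < b := by
    have h0 := hθ 0 ⟨le_rfl, hL.le⟩
    linarith [h0.1, h0.2]
  -- continuity of the fields
  have cu : ∀ i, i ≤ n → ContinuousOn (u i t) (Icc 0 L) := fun i hi => (hsol.dx i hi t ht).continuousOn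
  have cv : ∀ i, i ≤ n → ContinuousOn (v i t) (Icc 0 L) := fun i hi => (hsol.dxx i hi t ht).continuousOn
  have cθ : ContinuousOn θ (Icc 0 L) := hst.d1.continuousOn
  have cθ' : ContinuousOn θ' (Icc 0 L) := hst.d2.continuousOn
  have cP : ∀ k, k ≤ n → ContinuousOn (Ps (fun i => u i t) k) (Icc 0 L) := by
    intro k hk
    unfold Ps
    refine continuousOn_finsetSum _ fun i hi => cu i ?_
    have := Finset.mem_range.mp hi
    omega
  have cP' : ∀ k, k ≤ n → ContinuousOn (Ps (fun i => v i t) k) (Icc 0 L) := by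
    intro k hk
    unfold Ps
    refine continuousOn_finsetSum _ fun i hi => cv i ?_
    have := Finset.mem_range.mp hi
    omega
  have cR' : ∀ k, k ≤ n → ContinuousOn (Rs ρ (fun i => v i t) k) (Icc 0 L) := by
    intro k hk
    unfold Rs
    refine continuousOn_finsetSum _ fun i hi => continuousOn_const.mul (cv i ?_)
    have := Finset.mem_range.mp hi
    omega
  have pP : ∀ k, k ≤ n → ∀ x ∈ Icc 0 L, 0 < Ps (fun i => u i t) k x := by
    intro k hk x hx
    unfold Ps
    refine Finset.sum_pos (fun i hi => hsol.pos i ?_ t ht x hx) ⟨0, by simp⟩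
    have := Finset.mem_range.mp hi
    omega
  have cζ : ContinuousOn (fun x => θ' x / θ x) (Icc 0 L) :=
    cθ'.div cθ fun x hx => (hst.pos x hx).ne'
  have cS : ∀ k, k ≤ n → ContinuousOn (fun x => Sx n (fun i => u i t) x k) (Icc 0 L) := by
    intro k hk
    unfold Sx
    exact (cP k hk).div (cP n le_rfl) fun x hx => (pP n le_rfl x hx).ne'
  have pS : ∀ k, k ≤ n → ∀ x ∈ Icc 0 L, Sx n (fun i => u i t) x k ≠ 0 := by
    intro k hk x hx
    unfold Sx
    exact (div_pos (pP k hk x hx) (pP n le_rfl x hx)).ne'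
  have cZ : ∀ k, k ≤ n → ContinuousOn
      (fun x => Zx n (fun i => u i t) (fun i => v i t) x k) (Icc 0 L) := by
    intro k hk
    unfold Zx
    exact (cP' k hk).div (cP n le_rfl) fun x hx => (pP n le_rfl x hx).ne'
  have cZZ : ∀ k, k ≤ n → ContinuousOn
      (fun x => Zzx n ρ (fun i => u i t) (fun i => v i t) x k) (Icc 0 L) := by
    intro k hk
    unfold Zzx
    exact (cR' k hk).div (continuousOn_const.mul (cP n le_rfl)) fun x hx =>
      (mul_pos hord.pos (pP n le_rfl x hx)).ne'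
  have clam : ContinuousOn (fun x => lamf b (θ x)) (Icc 0 L) := by
    unfold lamf
    refine continuousOn_const.add (ContinuousOn.log (continuousOn_const.div cθ fun x hx =>
      (hst.pos x hx).ne') fun x hx => (div_pos hb0 (hst.pos x hx)).ne')
  have cA : ContinuousOn (fun x => Af a₀ b (θ x) / θ x) (Icc 0 L) := by
    refine ContinuousOn.div ?_ cθ fun x hx => (hst.pos x hx).ne'
    unfold Af
    exact ((continuousOn_const.mul (cθ.sub continuousOn_const)).sub
      (cθ.mul (cθ.log fun x hx => (hst.pos x hx).ne'))).add continuousOn_const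
  have cη : ∀ k, ContinuousOn (fun x => etaf c (rr n ρ) (lamf b (θ x)) k) (Icc 0 L) :=
    fun k => cont_eta clam k
  have cg : ContinuousOn (fun x => Ps (fun i => u i t) n x - θ x) (Icc 0 L) := (cP n le_rfl).sub cθ
  refine ⟨_, hD L a₀ b m θ θ' θ'' n c ρ u v w hsol hord hrts hst ha hb hθ t ht, ?_⟩
  rw [← intervalIntegral.integral_neg]
  refine intervalIntegral.integral_mono_on hL.le ?_ ?_ ?_
  · refine ContinuousOn.intervalIntegrable ?_
    rw [uIcc_of_le hL.le]
    refine ContinuousOn.sub (ContinuousOn.add (cg.pow 2).neg ?_) ?_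
    · exact continuousOn_const.mul ((cg.mul cζ).mul ((cZ n le_rfl).sub cζ))
    · exact (continuousOn_const.mul cθ).mul (cont_Q hrts.cn cη cS pS cZ cZZ cζ clam cA)
  · refine ContinuousOn.intervalIntegrable ?_
    rw [uIcc_of_le hL.le]
    unfold Dx
    exact ((continuousOn_const.mul (cg.pow 2)).add (continuousOn_const.mul
      (cθ.mul (cont_N cS pS cZ cZZ cζ)))).neg
  · intro x hx
    unfold Dx
    obtain ⟨⟨l1, l2⟩, ⟨A1, A2⟩, -⟩ := hW n c (rr n ρ) a₀ b hrts ha hb (θ x) (hθ x hx).1 (hθ x hx).2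
    have hθ0 := hst.pos x hx
    have hpar := hE n c (rr n ρ) (lamf b (θ x)) hrts l1 l2
    have hsta := hS n ρ (fun i => u i t) (fun i => v i t) x
      fun i hi => ⟨hn0 i hi, hsol.pos i hi t ht x hx⟩
    have halg := hA n c (lamf b (θ x)) (Af a₀ b (θ x) / θ x) (rr n ρ)
      (etaf c (rr n ρ) (lamf b (θ x))) _ _ _ (θ' x / θ x) hpar hsta (div_nonneg A1 hθ0.le) A2
    exact point hord.pos hθ0 (hz x hx) (Nf_ge hrts _ _ _ _) halg

end Pool.Agent.Lib.MP_4fbe7c_an.UL.H45
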